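import Pool.Agent.H393R3.Ramsey217

/-!
# A representation of `𝔈₇({2,3})` whose number of points is not a prime power

Answer to Q2 of MP_287fcc_lc.
-/

set_option autoImplicit false

namespace Pool.Agent.Results.MP_287fcc_lc.NotPrimePower

/-- `c` is a representation of the color algebra `𝔈ₙ({2,3})` over the set `U`: the pairs of
distinct points of `U` get one of `n - 1` colors, every color is used, no triangle has all three
edges of the same color, and if `{x, y}` has color `i`, then every ordered pair of colors `(j, k)`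
other than `(i, i)` is realized by some third point `z`. (The value `c x x` has no meaning.) -/
structure IsRep (n : ℕ) (U : Type) (c : U → U → Fin (n - 1)) : Prop where
  symm : ∀ x y, c x y = c y x
  used : ∀ i : Fin (n - 1), ∃ x y, x ≠ y ∧ c x y = i
  no_mono : ∀ x y z, x ≠ y → y ≠ z → x ≠ z → ¬ (c x y = c y z ∧ c y z = c x z)
  rich : ∀ x y, x ≠ y → ∀ j k : Fin (n - 1), ¬ (j = c x y ∧ k = c x y) →
    ∃ z, z ≠ x ∧ z ≠ y ∧ c x z = j ∧ c z y = k

/-- Q2: for some `n > 4` there is a representation of `𝔈ₙ({2,3})` over a set whose size is not a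
prime or a prime power. -/
def Q2 : Prop :=
  ∃ n : ℕ, 4 < n ∧ ∃ (U : Type) (_ : Fintype U) (c : U → U → Fin (n - 1)),
    IsRep n U c ∧ ¬ (Fintype.card U).Prime ∧ ¬ IsPrimePow (Fintype.card U)

/-- The color algebra `𝔈₇({2,3})` (six colors) has a representation over a set of
`217 = 7 · 31` points in which the color of `{x, y}` depends only on `x - y` modulo `217`; as `217`
is not a prime power, Q2 has a positive answer. -/
theorem result :
    (∃ f : ZMod 217 → Fin (7 - 1), IsRep 7 (ZMod 217) (fun x y => f (x - y))) ∧ Q2 := by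
  have hrep : IsRep 7 (Fin 217) H393R3.Ramsey217.c :=
    ⟨H393R3.Ramsey217.c_symm, H393R3.Ramsey217.c_surj, H393R3.Ramsey217.c_mono,
      H393R3.Ramsey217.c_rich⟩
  refine ⟨⟨fun t => ⟨H393R3.Ramsey217.col t.val % 6, Nat.mod_lt _ (by norm_num)⟩, ?_⟩, ?_⟩
  · have key : (fun x y : ZMod 217 =>
        (⟨H393R3.Ramsey217.col (x - y).val % 6, Nat.mod_lt _ (by norm_num)⟩ : Fin (7 - 1)))
        = (H393R3.Ramsey217.c : Fin 217 → Fin 217 → Fin 6) := by
      funext x y
      apply Fin.ext
      show H393R3.Ramsey217.col (x - y).val % 6 = H393R3.Ramsey217.col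
        (H393R3.Ramsey217.d x y) % 6
      have h : (x - y).val = H393R3.Ramsey217.d x y := by
        have h1 : (x - y : Fin 217).val = ((217 - y.val) + x.val) % 217 := Fin.sub_def x y ▸ rfl
        have h2 : (y : Fin 217).val < 217 := y.isLt
        have h3 : H393R3.Ramsey217.d x y = (x.val + 217 - y.val) % 217 := rfl
        rw [h3]
        refine h1.trans ?_
        congr 1
        omega
      rw [h]
    rw [key]
    exact hrep
  · refine ⟨7, by norm_num, Fin 217, inferInstance, H393R3.Ramsey217.c, hrep, ?_, ?_⟩
    · rw [Fintype.card_fin]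
      intro h
      exact H393R3.Ramsey217.not_isPrimePow_217 h.isPrimePow
    · rw [Fintype.card_fin]
      exact H393R3.Ramsey217.not_isPrimePow_217

end Pool.Agent.Results.MP_287fcc_lc.NotPrimePower
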